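import Pool.Agent.V11308.Blocks

/-!
# MP_ebce10: `v_p(a(pn) - a(n)) ≥ 3 + 3 v_p(n)` for primes `p > 3`, where
`a(n) = ∑_j C(n+j,j) C(n,j) C(n-j,j)`.

The proof uses MacMahon's identity `2 a(n) = ∑_k C(n,k)^3 ℓ(n-2k)`, where `ℓ(m) = ζ^m + ζ^(-m)`
for a primitive sixth root of unity `ζ`, and a strong form of the Ljunggren–Jacobsthal congruence.
-/

namespace Pool.Agent.Results.MP_ebce10_nt.Super

open Finset Pool.Agent.V11308

/-- `a(n) = ∑_{j=0}^n C(n+j,j) C(n,j) C(n-j,j)`. -/
def a (n : ℕ) : ℤ :=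
  ∑ j ∈ Finset.range (n + 1), ((n + j).choose j : ℤ) * (n.choose j : ℤ) * ((n - j).choose j : ℤ)

/-! ## MacMahon's identity -/

lemma vandermonde (a b c : ℕ) :
    ∑ i ∈ Finset.range (c + 1), a.choose i * b.choose (c - i) = (a + b).choose c := by
  rw [Nat.add_choose_eq, Finset.Nat.sum_antidiagonal_eq_sum_range_succ_mk]

lemma three (k m j : ℕ) : (k + m).choose j * (k + m - j).choose k = (k + m).choose k * m.choose j := by
  rcases Nat.lt_or_ge m j with h | h
  · rw [Nat.choose_eq_zero_of_lt h, mul_zero]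
    rcases Nat.lt_or_ge (k + m) j with h' | h'
    · rw [Nat.choose_eq_zero_of_lt h', zero_mul]
    · rw [Nat.choose_eq_zero_of_lt (by omega : k + m - j < k), mul_zero]
  · have h1 := Nat.choose_mul (n := k + m) (k := k + j) (s := j) (by omega)
    have h2 := Nat.choose_mul (n := k + m) (k := k + j) (s := k) (by omega)
    rw [show k + j - j = k by omega] at h1
    rw [show k + m - k = m by omega, show k + j - k = j by omega] at h2
    have h3 : (k + j).choose j = (k + j).choose k := (Nat.choose_symm_add).symm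
    rw [← h1, ← h2, h3]

/-- special case of Surányi's identity -/
lemma suranyi (k m : ℕ) :
    ∑ j ∈ Finset.range (k + m + 1), k.choose j * m.choose j * (k + m + j).choose (k + m) =
      ((k + m).choose k) ^ 2 := by
  have h1 : ∀ j, (k + m + j).choose (k + m) =
      ∑ i ∈ Finset.range (k + m + 1), j.choose i * (k + m).choose i := by
    intro j
    rw [show k + m + j = j + (k + m) by ring, ← vandermonde]
    apply Finset.sum_congr rfl
    intro i hi
    rw [Finset.mem_range] at hi
    rw [Nat.choose_symm (by omega)]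
  simp only [h1, Finset.mul_sum]
  rw [Finset.sum_comm]
  have h2 : ∀ i ∈ Finset.range (k + m + 1), ∑ j ∈ Finset.range (k + m + 1),
      k.choose j * m.choose j * (j.choose i * (k + m).choose i) =
      (k + m).choose k * (m.choose i * k.choose (k - i) * if i ≤ k then 1 else 0) := by
    intro i hi
    rw [Finset.mem_range] at hi
    have h3 : ∑ j ∈ Finset.range (k + m + 1), k.choose j * m.choose j * (j.choose i * (k + m).choose i) =
        ∑ j ∈ Finset.range (k + 1), k.choose j * m.choose j * (j.choose i * (k + m).choose i) := by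
      symm
      apply Finset.sum_subset
      · intro j hj; rw [Finset.mem_range] at *; omega
      · intro j _ hj2
        rw [Finset.mem_range] at hj2
        rw [Nat.choose_eq_zero_of_lt (by omega : k < j)]
        ring
    rw [h3]
    by_cases hik : i ≤ k
    · rw [if_pos hik, mul_one]
      have h4 : ∀ j ∈ Finset.range (k + 1), k.choose j * m.choose j * (j.choose i * (k + m).choose i) =
          (k + m).choose i * k.choose i * (m.choose j * (k - i).choose (k - j)) := by
        intro j hj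
        rw [Finset.mem_range] at hj
        rcases Nat.lt_or_ge j i with h | h
        · rw [Nat.choose_eq_zero_of_lt h, Nat.choose_eq_zero_of_lt (by omega : k - i < k - j)]
          ring
        · have h5 := Nat.choose_mul (n := k) (k := j) (s := i) h
          have h6 : (k - i).choose (k - j) = (k - i).choose (j - i) :=
            Nat.choose_symm_of_eq_add (by omega)
          rw [h6]
          calc k.choose j * m.choose j * (j.choose i * (k + m).choose i)
              = (k.choose j * j.choose i) * (m.choose j * (k + m).choose i) := by ring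
            _ = _ := by rw [h5]; ring
      rw [Finset.sum_congr rfl h4, ← Finset.mul_sum, vandermonde]
      have h7 := three k m i
      rw [show m + (k - i) = k + m - i by omega, Nat.choose_symm hik]
      calc (k + m).choose i * k.choose i * (k + m - i).choose k
          = k.choose i * ((k + m).choose i * (k + m - i).choose k) := by ring
        _ = _ := by rw [h7]; ring
    · rw [if_neg hik, mul_zero, mul_zero]
      apply Finset.sum_eq_zero
      intro j hj
      rw [Finset.mem_range] at hj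
      rw [Nat.choose_eq_zero_of_lt (by omega : j < i)]
      ring
  rw [Finset.sum_congr rfl h2, ← Finset.mul_sum]
  have h8 : ∑ i ∈ Finset.range (k + m + 1), (m.choose i * k.choose (k - i) * if i ≤ k then 1 else 0) =
      ∑ i ∈ Finset.range (k + 1), m.choose i * k.choose (k - i) := by
    symm
    rw [Finset.sum_subset_zero_on_sdiff (f := fun i => m.choose i * k.choose (k - i))
      (g := fun i => (m.choose i * k.choose (k - i) * if i ≤ k then 1 else 0))
      (s₁ := Finset.range (k + 1)) (s₂ := Finset.range (k + m + 1))]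
    · intro j hj; rw [Finset.mem_range] at *; omega
    · intro i hi
      rw [Finset.mem_sdiff, Finset.mem_range, Finset.mem_range] at hi
      rw [if_neg (by omega), mul_zero]
    · intro i hi
      rw [Finset.mem_range] at hi
      rw [if_pos (by omega), mul_one]
  rw [h8, vandermonde, add_comm m k, sq]

/-- `ℓ(m) = ζ^m + ζ^(-m)` for `ζ` a primitive sixth root of unity. -/
def ell (m : ℤ) : ℤ :=
  if m % 6 = 0 then 2 else if m % 6 = 1 ∨ m % 6 = 5 then 1 else if m % 6 = 3 then -2 else -1

lemma ell_rec (m : ℤ) : ell (m + 1) + ell (m - 1) = ell m := by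
  unfold ell
  have h : m % 6 = 0 ∨ m % 6 = 1 ∨ m % 6 = 2 ∨ m % 6 = 3 ∨ m % 6 = 4 ∨ m % 6 = 5 := by omega
  rcases h with h | h | h | h | h | h
  · rw [show (m + 1) % 6 = 1 by omega, show (m - 1) % 6 = 5 by omega, h]; norm_num
  · rw [show (m + 1) % 6 = 2 by omega, show (m - 1) % 6 = 0 by omega, h]; norm_num
  · rw [show (m + 1) % 6 = 3 by omega, show (m - 1) % 6 = 1 by omega, h]; norm_num
  · rw [show (m + 1) % 6 = 4 by omega, show (m - 1) % 6 = 2 by omega, h]; norm_num
  · rw [show (m + 1) % 6 = 5 by omega, show (m - 1) % 6 = 3 by omega, h]; norm_num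
  · rw [show (m + 1) % 6 = 0 by omega, show (m - 1) % 6 = 4 by omega, h]; norm_num

lemma ell_mul {p : ℕ} (hp : p % 6 = 1 ∨ p % 6 = 5) (m : ℤ) : ell (p * m) = ell m := by
  unfold ell
  have h : m % 6 = 0 ∨ m % 6 = 1 ∨ m % 6 = 2 ∨ m % 6 = 3 ∨ m % 6 = 4 ∨ m % 6 = 5 := by omega
  have hp' : (p : ℤ) % 6 = 1 ∨ (p : ℤ) % 6 = 5 := by omega
  rw [Int.mul_emod]
  rcases hp' with hp' | hp' <;> rcases h with h | h | h | h | h | h <;> rw [hp', h] <;> norm_num

lemma ell_sum (N : ℕ) : ∀ c : ℤ,
    ∑ i ∈ Finset.range (N + 1), (N.choose i : ℤ) * ell (c + N - 2 * i) = ell c := by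
  induction N with
  | zero => intro c; simp
  | succ N ih =>
    intro c
    have h := Finset.sum_choose_succ_mul (R := ℤ)
      (fun i _ => ell (c + ((N + 1 : ℕ) : ℤ) - 2 * i)) N
    rw [h]
    have h1 := ih (c + 1)
    have h2 := ih (c - 1)
    rw [← ell_rec c, ← h1, ← h2]
    congr 1
    · apply Finset.sum_congr rfl
      intro i _
      congr 2; push_cast; ring
    · apply Finset.sum_congr rfl
      intro i _
      congr 2; push_cast; ring

lemma inner (n j : ℕ) :
    ∑ k ∈ Finset.range (n + 1), (n.choose k : ℤ) * (k.choose j : ℤ) * ((n - k).choose j : ℤ) *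
      ell (n - 2 * k) = (n.choose j : ℤ) * ((n - j).choose j : ℤ) * 2 := by
  rcases Nat.lt_or_ge n (2 * j) with h | h
  · rw [Nat.choose_eq_zero_of_lt (by omega : n - j < j)]
    simp only [Nat.cast_zero, mul_zero, zero_mul]
    apply Finset.sum_eq_zero
    intro k hk
    rw [Finset.mem_range] at hk
    rcases Nat.lt_or_ge k j with h1 | h1
    · rw [Nat.choose_eq_zero_of_lt h1]; simp
    · rw [Nat.choose_eq_zero_of_lt (by omega : n - k < j)]; simp
  · obtain ⟨N, rfl⟩ : ∃ N, n = N + 2 * j := ⟨n - 2 * j, by omega⟩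
    rw [show N + 2 * j + 1 = j + (N + 1) + j by ring, Finset.sum_range_add, Finset.sum_range_add]
    have h1 : ∑ x ∈ Finset.range j, ((N + 2 * j).choose x : ℤ) * (x.choose j : ℤ) *
        ((N + 2 * j - x).choose j : ℤ) * ell ((N + 2 * j : ℕ) - 2 * x) = 0 := by
      apply Finset.sum_eq_zero
      intro k hk
      rw [Finset.mem_range] at hk
      rw [Nat.choose_eq_zero_of_lt hk]; simp
    have h2 : ∑ x ∈ Finset.range j, ((N + 2 * j).choose (j + (N + 1) + x) : ℤ) *
        ((j + (N + 1) + x).choose j : ℤ) *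
        ((N + 2 * j - (j + (N + 1) + x)).choose j : ℤ) *
          ell ((N + 2 * j : ℕ) - 2 * ((j + (N + 1) + x : ℕ) : ℤ)) = 0 := by
      apply Finset.sum_eq_zero
      intro k hk
      rw [Finset.mem_range] at hk
      rw [Nat.choose_eq_zero_of_lt (by omega : N + 2 * j - (j + (N + 1) + k) < j)]; simp
    rw [h1, h2, zero_add, add_zero]
    have h3 := ell_sum N 0
    have h4 : ell 0 = 2 := by decide
    rw [h4] at h3
    conv_rhs => rw [← h3, Finset.mul_sum]
    apply Finset.sum_congr rfl
    intro i hi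
    rw [Finset.mem_range] at hi
    have e1 := Nat.choose_mul (n := N + 2 * j) (k := j + i) (s := j) (by omega)
    have e2 := three j (N + j) i
    rw [show N + 2 * j - j = N + j by omega, show j + i - j = i by omega] at e1
    have e3 : (N + j).choose i * (N + j - i).choose j = (N + j).choose j * N.choose i := by
      have := three j N i
      rw [add_comm j N] at this
      exact this
    have e4 : (N + 2 * j).choose (j + i) * (j + i).choose j * (N + 2 * j - (j + i)).choose j =
        (N + 2 * j).choose j * (N + j).choose j * N.choose i := by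
      rw [e1, show N + 2 * j - (j + i) = N + j - i by omega, mul_assoc, e3, mul_assoc]
    have e5 := congrArg (Nat.cast : ℕ → ℤ) e4
    push_cast at e5
    rw [show N + 2 * j - j = N + j by omega]
    have e6 : ((N + 2 * j : ℕ) : ℤ) - 2 * ((j + i : ℕ) : ℤ) = 0 + N - 2 * i := by push_cast; ring
    rw [e6]
    linear_combination (ell (0 + N - 2 * i)) * e5

/-- MacMahon's identity -/
lemma macmahon (n : ℕ) :
    2 * a n = ∑ k ∈ Finset.range (n + 1), (n.choose k : ℤ) ^ 3 * ell (n - 2 * k) := by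
  have h1 : ∀ k ∈ Finset.range (n + 1), (n.choose k : ℤ) ^ 3 * ell (n - 2 * k) =
      ∑ j ∈ Finset.range (n + 1), ((n + j).choose j : ℤ) * ((n.choose k : ℤ) * (k.choose j : ℤ) *
        ((n - k).choose j : ℤ) * ell (n - 2 * k)) := by
    intro k hk
    rw [Finset.mem_range] at hk
    have h2 := suranyi k (n - k)
    rw [show k + (n - k) = n by omega] at h2
    have h3 := congrArg (Nat.cast : ℕ → ℤ) h2
    push_cast at h3
    rw [pow_succ (n.choose k : ℤ) 2, ← h3, Finset.sum_mul, Finset.sum_mul]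
    apply Finset.sum_congr rfl
    intro j _
    have h4 : (n + j).choose n = (n + j).choose j := Nat.choose_symm_add
    rw [h4]
    ring
  rw [Finset.sum_congr rfl h1, Finset.sum_comm]
  unfold a
  rw [Finset.mul_sum]
  apply Finset.sum_congr rfl
  intro j _
  rw [← Finset.mul_sum, inner]
  ring

/-! ## A strong form of the Ljunggren–Jacobsthal congruence -/

variable {p : ℕ} [hp : Fact p.Prime]

/-- `∏_{i < N, p ∤ i} (1 + x / i)` -/
noncomputable def F (p : ℕ) [Fact p.Prime] (x : ℤ_[p]) (N : ℕ) : ℤ_[p] :=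
  ∏ i ∈ Finset.range N, (1 + x * t p i)

lemma choose_eq (m j : ℕ) :
    (((p * m + j).choose j : ℕ) : ℤ_[p]) =
      (((m + j / p).choose (j / p) : ℕ) : ℤ_[p]) * F p (p * m) (j + 1) := by
  have hp0 : 0 < p := hp.out.pos
  induction j with
  | zero => simp [F, t_eq_zero]
  | succ j ih =>
    have hG := congrArg (Nat.cast : ℕ → ℤ_[p]) (Nat.add_one_mul_choose_eq (p * m + j) j)
    push_cast at hG
    have hF : F p (p * m) (j + 1 + 1) = F p (p * m) (j + 1) * (1 + p * m * t p (j + 1)) := by
      unfold F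
      rw [Finset.prod_range_succ _ (j + 1)]
    rw [hF, ← add_assoc]
    by_cases hd : p ∣ j + 1
    · rw [t_eq_zero hd, mul_zero, add_zero, mul_one]
      obtain ⟨q, hq⟩ := hd
      have hq1 : 1 ≤ q := by
        rcases Nat.eq_zero_or_pos q with h0 | h0
        · rw [h0] at hq; omega
        · exact h0
      have d1 : (j + 1) / p = q := by rw [hq]; exact Nat.mul_div_cancel_left _ hp0
      have d2 : j / p = q - 1 := by
        have : j = p * (q - 1) + (p - 1) := by
          have : p * q = p * (q - 1) + p := by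
            conv_lhs => rw [show q = q - 1 + 1 by omega]
            ring
          omega
        rw [this, Nat.mul_add_div hp0, Nat.div_eq_of_lt (by omega), add_zero]
      rw [d2] at ih
      rw [d1]
      have hG2 := congrArg (Nat.cast : ℕ → ℤ_[p]) (Nat.add_one_mul_choose_eq (m + (q - 1)) (q - 1))
      rw [show m + (q - 1) + 1 = m + q by omega, show q - 1 + 1 = q by omega] at hG2
      push_cast at hG2
      have hjc : (j : ℤ_[p]) + 1 = p * q := by
        have := congrArg (Nat.cast : ℕ → ℤ_[p]) hq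
        push_cast at this
        exact this
      have hne : ((p : ℤ_[p]) * q) ≠ 0 := by
        apply mul_ne_zero
        · exact_mod_cast hp0.ne'
        · exact_mod_cast (by omega : q ≠ 0)
      apply mul_right_cancel₀ hne
      have hG3 : (((p * m + j + 1).choose (j + 1) : ℕ) : ℤ_[p]) * (p * q) =
          (p * m + p * q) * ((p * m + j).choose j : ℕ) := by
        rw [← hjc]
        linear_combination -hG
      rw [hG3, ih]
      linear_combination p * F p (p * m) (j + 1) * hG2
    · have d1 : (j + 1) / p = j / p := by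
        rw [Nat.succ_div, if_neg hd, add_zero]
      rw [d1]
      have ht := mul_t (p := p) hd
      push_cast at ht
      rw [← mul_assoc, ← ih]
      linear_combination (-t p (j + 1)) * hG + (((p * m + j).choose j : ℕ) -
        (((p * m + j + 1).choose (j + 1) : ℕ) : ℤ_[p])) * ht

lemma F_mod (x : ℤ_[p]) (N : ℕ) : ∃ e : ℤ_[p], F p x N = 1 + x * e := by
  induction N with
  | zero => exact ⟨0, by simp [F]⟩
  | succ N ih =>
    obtain ⟨e, he⟩ := ih
    refine ⟨e + t p N + x * e * t p N, ?_⟩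
    unfold F at he ⊢
    rw [Finset.prod_range_succ, he]
    ring

/-- second order expansion of a product -/
lemma prod_expand (y : ℤ_[p]) (u : ℕ → ℤ_[p]) (N : ℕ) :
    ∃ e : ℤ_[p], ∏ i ∈ Finset.range N, (1 + y * u i) =
      1 + y * ∑ i ∈ Finset.range N, u i + y ^ 2 * e := by
  induction N with
  | zero => exact ⟨0, by simp⟩
  | succ N ih =>
    obtain ⟨e, he⟩ := ih
    rw [Finset.prod_range_succ, Finset.sum_range_succ, he]
    generalize ∑ i ∈ Finset.range N, u i = s
    exact ⟨e * (1 + y * u N) + s * u N, by ring⟩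

lemma F_sq (x : ℤ_[p]) (k : ℕ) :
    F p x (p * k) ^ 2 = ∏ i ∈ Finset.range (p * k),
      (1 + x * (p * k + x) * (t p i * t p (p * k - i))) := by
  have hn : p ∣ p * k := dvd_mul_right _ _
  have h1 : F p x (p * k) = ∏ i ∈ Finset.range (p * k), (1 + x * t p (p * k - i)) := by
    have h2 := Finset.prod_range_reflect (fun i => 1 + x * t p (i + 1)) (p * k)
    have h3 : ∏ j ∈ Finset.range (p * k), (1 + x * t p (p * k - 1 - j + 1)) =
        ∏ j ∈ Finset.range (p * k), (1 + x * t p (p * k - j)) := by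
      apply Finset.prod_congr rfl
      intro j hj
      rw [Finset.mem_range] at hj
      rw [show p * k - 1 - j + 1 = p * k - j by omega]
    rw [← h3, h2]
    have h4 := Finset.prod_range_succ' (fun i => 1 + x * t p i) (p * k)
    rw [Finset.prod_range_succ] at h4
    simp only [t_eq_zero hn, t_eq_zero (dvd_zero p), mul_zero, add_zero, mul_one] at h4
    unfold F
    exact h4
  rw [sq]
  conv_lhs => rw [h1]
  rw [← h1]
  conv_lhs =>
    arg 2
    rw [h1]
  unfold F
  rw [← Finset.prod_mul_distrib]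
  apply Finset.prod_congr rfl
  intro i hi
  rw [Finset.mem_range] at hi
  by_cases hd : p ∣ i
  · have hd2 : p ∣ p * k - i := Nat.dvd_sub hn hd
    rw [t_eq_zero hd, t_eq_zero hd2]; ring
  · have hd2 : ¬ p ∣ p * k - i := by
      intro h3
      apply hd
      have := Nat.dvd_sub hn h3
      rwa [Nat.sub_sub_self hi.le] at this
    have e1 := mul_t hd
    have e2 := mul_t hd2
    rw [Nat.cast_sub hi.le] at e2
    push_cast at e2
    generalize t p (p * k - i) = v at *
    generalize t p i = u at *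
    linear_combination -x * u * e2 - x * v * e1

lemma t_refl (n j : ℕ) (hn : p ∣ n) (hj : j ≤ n) :
    ∃ e : ℤ_[p], t p j * t p (n - j) = - t p j ^ 2 + n * e := by
  by_cases h : p ∣ j
  · have h2 : p ∣ n - j := Nat.dvd_sub hn h
    exact ⟨0, by rw [t_eq_zero h, t_eq_zero h2]; ring⟩
  · have h2 : ¬ p ∣ n - j := by
      intro h3
      apply h
      have := Nat.dvd_sub hn h3
      rwa [Nat.sub_sub_self hj] at this
    have e1 := mul_t h
    have e2 := mul_t h2
    rw [Nat.cast_sub hj] at e2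
    refine ⟨t p j ^ 2 * t p (n - j), ?_⟩
    generalize t p (n - j) = T at *
    generalize t p j = u at *
    linear_combination (-u ^ 2) * e2 - u * T * e1

lemma jac (m k c : ℕ) (hm : p ^ c ∣ m) (hk : p ^ c ∣ k) (hp5 : 5 ≤ p) :
    (p : ℤ_[p]) ^ (3 + 3 * c) ∣ F p (p * m) (p * k) - 1 := by
  obtain ⟨m', rfl⟩ := hm
  obtain ⟨k', rfl⟩ := hk
  have hsq := F_sq (p := p) (p * ((p ^ c * m' : ℕ) : ℤ_[p])) (p ^ c * k')
  set y : ℤ_[p] := p * ((p ^ c * m' : ℕ) : ℤ_[p]) *
    (p * ((p ^ c * k' : ℕ) : ℤ_[p]) + p * ((p ^ c * m' : ℕ) : ℤ_[p])) with hy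
  have hy' : y = p ^ (2 + 2 * c) * (m' * (k' + m')) := by
    rw [hy]
    push_cast
    rw [pow_add, pow_mul' (p : ℤ_[p]) 2 c]
    ring
  obtain ⟨e, he⟩ := prod_expand (p := p) y
    (fun i => t p i * t p (p * (p ^ c * k') - i)) (p * (p ^ c * k'))
  rw [he] at hsq
  have hdvd : (p : ℤ_[p]) ^ (c + 1) ∣
      ∑ i ∈ Finset.range (p * (p ^ c * k')), t p i * t p (p * (p ^ c * k') - i) := by
    have h1 : ∀ i ∈ Finset.range (p * (p ^ c * k')), ∃ g : ℤ_[p],
        t p i * t p (p * (p ^ c * k') - i) = - t p i ^ 2 + (p * (p ^ c * k') : ℕ) * g := by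
      intro i hi
      rw [Finset.mem_range] at hi
      exact t_refl _ i (dvd_mul_right _ _) hi.le
    choose! g hg using h1
    rw [Finset.sum_congr rfl hg, Finset.sum_add_distrib, ← Finset.mul_sum, Finset.sum_neg_distrib]
    apply dvd_add
    · rw [dvd_neg]
      obtain ⟨f, hf⟩ := S_mul (p := p) 2 (p ^ (c + 1)) k' (dvd_pow_self p (by omega))
      have h2 : p * (p ^ c * k') = p ^ (c + 1) * k' := by ring
      rw [h2]
      change _ ∣ S p 2 (p ^ (c + 1) * k')
      rw [hf]
      apply dvd_add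
      · exact Dvd.dvd.mul_left (dvd_S_two (c + 1) (by omega) hp5) _
      · push_cast
        exact dvd_mul_right _ _
    · apply Dvd.dvd.mul_right
      exact ⟨k', by push_cast; ring⟩
  obtain ⟨s, hs⟩ := hdvd
  rw [hs] at hsq
  obtain ⟨g, hg⟩ := F_mod (p := p) (p * ((p ^ c * m' : ℕ) : ℤ_[p])) (p * (p ^ c * k'))
  set f := F p (p * ((p ^ c * m' : ℕ) : ℤ_[p])) (p * (p ^ c * k')) with hf
  have h2 : (p : ℤ_[p]) ^ (3 + 3 * c) ∣ (f - 1) * (f + 1) := by
    have h3 : (f - 1) * (f + 1) = y * (p ^ (c + 1) * s) + y ^ 2 * e := by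
      linear_combination hsq
    rw [h3, hy']
    apply dvd_add
    · refine ⟨m' * (k' + m') * s, ?_⟩
      rw [show 3 + 3 * c = (2 + 2 * c) + (c + 1) by ring, pow_add (p : ℤ_[p]) (2 + 2 * c) (c + 1)]
      ring
    · rw [mul_pow, ← pow_mul]
      apply Dvd.dvd.mul_right
      apply Dvd.dvd.mul_right
      exact pow_dvd_pow _ (by omega)
  have h3 : IsUnit (f + 1) := by
    rw [PadicInt.isUnit_iff]
    have h4 : ‖(f + 1)‖ ≤ 1 := PadicInt.norm_le_one _
    rcases h4.lt_or_eq with h5 | h5
    · exfalso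
      have h6 : PadicInt.toZMod (f + 1) = 0 := by
        rw [← RingHom.mem_ker, PadicInt.ker_toZMod, IsLocalRing.mem_maximalIdeal, mem_nonunits_iff,
          PadicInt.isUnit_iff]
        exact ne_of_lt h5
      rw [hg] at h6
      simp only [map_add, map_mul, map_one, map_natCast, CharP.cast_eq_zero, zero_mul,
        add_zero] at h6
      have h7 : (((2 : ℕ)) : ZMod p) = 0 := by
        push_cast
        linear_combination h6
      rw [ZMod.natCast_eq_zero_iff] at h7
      have := Nat.le_of_dvd (by norm_num) h7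
      omega
    · exact h5
  exact (h3.dvd_mul_right).1 h2

lemma term_div (n b : ℕ) (hn : 0 < n) (hb1 : 1 ≤ b) (hb : b < n) (hp5 : 5 ≤ p) :
    (p : ℤ_[p]) ^ (3 + 3 * padicValNat p n) ∣
      (((p * n).choose (p * b) : ℕ) : ℤ_[p]) ^ 3 - ((n.choose b : ℕ) : ℤ_[p]) ^ 3 := by
  set v := padicValNat p n with hv
  have hpn : p ^ v ∣ n := pow_padicValNat_dvd
  -- the common exponent
  have hc : ∃ c ≤ v, p ^ c ∣ b ∧ p ^ c ∣ n - b ∧ p ^ (v - c) ∣ n.choose b := by
    obtain ⟨w, b', hb', hbw⟩ := Nat.exists_eq_pow_mul_and_not_dvd (by omega : b ≠ 0) p hp.out.ne_one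
    rcases Nat.lt_or_ge w v with h | h
    · refine ⟨w, h.le, ⟨b', hbw⟩, ?_, ?_⟩
      · exact Nat.dvd_sub ((pow_dvd_pow p h.le).trans hpn) ⟨b', hbw⟩
      · have h1 := Nat.add_one_mul_choose_eq (n - 1) (b - 1)
        rw [show n - 1 + 1 = n by omega, show b - 1 + 1 = b by omega] at h1
        have h2 : p ^ v ∣ n.choose b * b := by
          rw [← h1]; exact Dvd.dvd.mul_right hpn _
        have h3 : p ^ v = p ^ (v - w) * p ^ w := by rw [← pow_add]; congr 1; omega
        have h4 : p ^ (v - w) ∣ n.choose b * b' := by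
          have h5 : p ^ w ≠ 0 := pow_ne_zero _ hp.out.ne_zero
          apply Nat.dvd_of_mul_dvd_mul_right (Nat.pos_of_ne_zero h5)
          rw [← h3]
          have h6 : n.choose b * b' * p ^ w = n.choose b * b := by rw [hbw]; ring
          rw [h6]; exact h2
        have h7 : Nat.Coprime (p ^ (v - w)) b' :=
          Nat.Coprime.pow_left _ ((Nat.Prime.coprime_iff_not_dvd hp.out).2 hb')
        exact h7.dvd_of_dvd_mul_right h4
    · have h1 : p ^ v ∣ b := by
        rw [hbw]; exact dvd_mul_of_dvd_left (pow_dvd_pow p h) _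
      exact ⟨v, le_rfl, h1, Nat.dvd_sub hpn h1, by simp⟩
  obtain ⟨c, hcv, hc1, hc2, hc3⟩ := hc
  have hch := choose_eq (p := p) (n - b) (p * b)
  rw [Nat.mul_div_cancel_left _ hp.out.pos, show n - b + b = n by omega,
    show p * (n - b) + p * b = p * n by rw [← mul_add]; congr 1; omega] at hch
  have hF : F p (p * ((n - b : ℕ) : ℤ_[p])) (p * b + 1) = F p (p * ((n - b : ℕ) : ℤ_[p])) (p * b) := by
    unfold F
    rw [Finset.prod_range_succ, t_eq_zero (dvd_mul_right p b), mul_zero, add_zero, mul_one]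
  rw [hF] at hch
  obtain ⟨f, hf⟩ := jac (p := p) (n - b) b c hc2 hc1 hp5
  have hf' : F p (p * ((n - b : ℕ) : ℤ_[p])) (p * b) = 1 + p ^ (3 + 3 * c) * f := by
    linear_combination hf
  rw [hch, hf']
  obtain ⟨g, hg⟩ := hc3
  have hg' : ((n.choose b : ℕ) : ℤ_[p]) = p ^ (v - c) * g := by rw [hg]; push_cast; ring
  rw [hg']
  have h3 : (p : ℤ_[p]) ^ (3 + 3 * v) = (p ^ (v - c)) ^ 3 * p ^ (3 + 3 * c) := by
    rw [← pow_mul, ← pow_add]; congr 1; omega
  rw [h3]
  generalize (p : ℤ_[p]) ^ (v - c) = P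
  generalize (p : ℤ_[p]) ^ (3 + 3 * c) = Q
  exact ⟨g ^ 3 * f * (3 + 3 * Q * f + Q ^ 2 * f ^ 2), by ring⟩

lemma term_nondiv (n K : ℕ) (hn : 0 < n) (hK : ¬ p ∣ K) :
    (p : ℤ_[p]) ^ (3 + 3 * padicValNat p n) ∣ (((p * n).choose K : ℕ) : ℤ_[p]) ^ 3 := by
  have hpn : p ^ padicValNat p n ∣ n := pow_padicValNat_dvd
  have hp0 : 0 < p := hp.out.pos
  have hK0 : K ≠ 0 := by
    rintro rfl; exact hK (dvd_zero p)
  have hpn0 : 0 < p * n := Nat.mul_pos hp0 hn
  have h1 := Nat.add_one_mul_choose_eq (p * n - 1) (K - 1)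
  rw [show p * n - 1 + 1 = p * n by omega, show K - 1 + 1 = K by omega] at h1
  have h2 : p ^ (padicValNat p n + 1) ∣ (p * n).choose K * K := by
    rw [← h1, pow_succ, mul_comm]
    exact Dvd.dvd.mul_right (mul_dvd_mul_left p hpn) _
  have h7 : Nat.Coprime (p ^ (padicValNat p n + 1)) K :=
    Nat.Coprime.pow_left _ ((Nat.Prime.coprime_iff_not_dvd hp.out).2 hK)
  obtain ⟨g, hg⟩ := h7.dvd_of_dvd_mul_right h2
  rw [hg]
  push_cast
  rw [mul_pow, ← pow_mul, show (padicValNat p n + 1) * 3 = 3 + 3 * padicValNat p n by ring]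
  exact dvd_mul_right _ _

/-- For every prime `p > 3` and every `n ≥ 1`, `p^(3 + 3 v_p(n))` divides `a(pn) - a(n)`. -/
theorem result : ∀ p : ℕ, p.Prime → 3 < p → ∀ n : ℕ, 0 < n →
    (p : ℤ) ^ (3 + 3 * padicValNat p n) ∣ a (p * n) - a n := by
  intro p hp h3 n hn
  have : Fact p.Prime := ⟨hp⟩
  have hp0 : 0 < p := hp.pos
  have hp5 : 5 ≤ p := by
    rcases Nat.lt_or_ge p 5 with h | h
    · exfalso
      obtain rfl : p = 4 := by omega
      exact absurd hp (by decide)
    · exact h
  have hp6 : p % 6 = 1 ∨ p % 6 = 5 := by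
    have h2 : ¬ 2 ∣ p := by
      intro h
      have := (Nat.prime_dvd_prime_iff_eq Nat.prime_two hp).1 h
      omega
    have h3' : ¬ 3 ∣ p := by
      intro h
      have := (Nat.prime_dvd_prime_iff_eq Nat.prime_three hp).1 h
      omega
    omega
  rw [← PadicInt.pow_p_dvd_int_iff (p := p)]
  have h2u : IsUnit ((2 : ℕ) : ℤ_[p]) := isUnit_cast (by
    intro h; have := Nat.le_of_dvd (by norm_num) h; omega)
  apply (h2u.dvd_mul_left).1
  have e1 := congrArg (Int.cast : ℤ → ℤ_[p]) (macmahon (p * n))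
  have e2 := congrArg (Int.cast : ℤ → ℤ_[p]) (macmahon n)
  push_cast at e1 e2
  rw [Finset.sum_range_succ] at e1 e2
  simp only [Nat.choose_self, Nat.cast_one, one_pow, one_mul] at e1 e2
  -- the function summed for `p n`
  set G : ℕ → ℤ_[p] := fun K => (((p * n).choose K : ℕ) : ℤ_[p]) ^ 3 *
    ((ell ((p : ℤ) * n - 2 * K) : ℤ) : ℤ_[p]) with hG
  have e3 : ∑ K ∈ Finset.range (p * n), G K =
      ∑ b ∈ Finset.range n, (G (p * b) + ∑ i ∈ Finset.Ico 1 p, G (i + p * b)) := by
    rw [sum_range_mul']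
    apply Finset.sum_congr rfl
    intro b _
    rw [Finset.range_eq_Ico, Finset.sum_eq_sum_Ico_succ_bot hp0, zero_add]
  have e4 : ((ell ((p : ℤ) * n - 2 * ((p * n : ℕ) : ℤ)) : ℤ) : ℤ_[p]) =
      ((ell ((n : ℤ) - 2 * n) : ℤ) : ℤ_[p]) := by
    rw [show (p : ℤ) * n - 2 * ((p * n : ℕ) : ℤ) = p * (n - 2 * n) by push_cast; ring, ell_mul hp6]
  have e5 : ((2 : ℕ) : ℤ_[p]) * ((a (p * n) - a n : ℤ) : ℤ_[p]) =
      ∑ b ∈ Finset.range n, ((G (p * b) - ((n.choose b : ℕ) : ℤ_[p]) ^ 3 *
        ((ell ((n : ℤ) - 2 * b) : ℤ) : ℤ_[p])) + ∑ i ∈ Finset.Ico 1 p, G (i + p * b)) := by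
    have e6 : ∑ b ∈ Finset.range n, ((G (p * b) - ((n.choose b : ℕ) : ℤ_[p]) ^ 3 *
        ((ell ((n : ℤ) - 2 * b) : ℤ) : ℤ_[p])) + ∑ i ∈ Finset.Ico 1 p, G (i + p * b)) =
        ∑ K ∈ Finset.range (p * n), G K - ∑ b ∈ Finset.range n, ((n.choose b : ℕ) : ℤ_[p]) ^ 3 *
        ((ell ((n : ℤ) - 2 * b) : ℤ) : ℤ_[p]) := by
      rw [e3, ← Finset.sum_sub_distrib]
      apply Finset.sum_congr rfl
      intro b _
      ring
    rw [e6]
    push_cast
    rw [hG]
    linear_combination e1 - e2 + e4
  rw [e5]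
  apply Finset.dvd_sum
  intro b hb
  rw [Finset.mem_range] at hb
  apply dvd_add
  · have h4 : G (p * b) = (((p * n).choose (p * b) : ℕ) : ℤ_[p]) ^ 3 *
        ((ell ((n : ℤ) - 2 * b) : ℤ) : ℤ_[p]) := by
      rw [hG]
      simp only
      rw [show (p : ℤ) * n - 2 * ((p * b : ℕ) : ℤ) = p * (n - 2 * b) by push_cast; ring, ell_mul hp6]
    rw [h4, ← sub_mul]
    apply Dvd.dvd.mul_right
    rcases Nat.eq_zero_or_pos b with h0 | h0
    · subst h0; simp
    · exact term_div n b hn h0 hb hp5
  · apply Finset.dvd_sum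
    intro i hi
    apply Dvd.dvd.mul_right
    apply term_nondiv n _ hn
    intro h
    have h5 := (Nat.dvd_add_left (dvd_mul_right p b)).1 h
    exact not_dvd_of_mem hi h5

end Pool.Agent.Results.MP_ebce10_nt.Super
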